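import Pool.Agent.Helper236.Ex5

namespace Pool.Agent.Results.MP_5f9c07_co.Main

open Pool.Agent.Helper236

/-- `M` is a tangential `k`-block over the finite field `F`: it is finite, simple and representable
over `F`, its critical exponent is larger than `k`, and every simple proper minor of `M` has
critical exponent at most `k`. -/
def IsTangentialBlock (F : Type) [Field F] (k : ℕ) {α : Type} (M : Matroid α) : Prop :=
  M.Finite ∧ IsSimple M ∧ Representable F M ∧ (k : ℕ∞) < critExp M (Nat.card F) ∧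
    ∀ N : Matroid α, N.IsMinor M → N ≠ M → IsSimple N → critExp N (Nat.card F) ≤ k

theorem result : ∃ (F : Type) (_ : Field F) (_ : Finite F) (k : ℕ) (α : Type) (M : Matroid α),
    1 ≤ k ∧ IsTangentialBlock F k M ∧ IsNormal (Nat.card F) k M ∧
      ¬ ∃ H, IsModularHyperplane M H := by
  refine ⟨ZMod 5, inferInstance, inferInstance, 1, Fin 10, Ex5.Mat, le_refl 1,
    ⟨Ex5.Mat_finite, Ex5.Mat_simple, ⟨3, Ex5.pt, Ex5.Mat_rep⟩, Ex5.Mat_critExp_gt, ?_⟩, ?_,
    Ex5.Mat_not_modular⟩
  · intro N hN hne hs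
    exact Ex5.Mat_minor hN hne (isSimple_nonloop hs)
  · rw [Nat.card_zmod]
    exact Ex5.Mat_normal

end Pool.Agent.Results.MP_5f9c07_co.Main
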